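import Pool.Agent.Helper36.SPR.St5

/-!
# Project SPR3: module PCM (products of periodic combinations)
-/

set_option autoImplicit false

namespace Pool.Agent.Helper79.SPR

open Finset
open Pool.Agent.Helper36.SPR

theorem hPCM : StPCM := by
  intro k W T W' T' C C' F F' h h'
  obtain ⟨m, c, g, t, h1, h2, h3⟩ := h
  obtain ⟨m', c', g', t', h1', h2', h3'⟩ := h'
  refine ⟨m * m', fun l => c (finProdFinEquiv.symm l).1 * c' (finProdFinEquiv.symm l).2,
    fun l v => g (finProdFinEquiv.symm l).1 v * g' (finProdFinEquiv.symm l).2 v,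
    fun l => t (finProdFinEquiv.symm l).1 * t' (finProdFinEquiv.symm l).2, ?_, ?_, ?_⟩
  · intro l
    obtain ⟨a1, a2, a3, a4, a5⟩ := h1 (finProdFinEquiv.symm l).1
    obtain ⟨b1, b2, b3, b4, b5⟩ := h1' (finProdFinEquiv.symm l).2
    refine ⟨Nat.mul_pos a1 b1, Nat.mul_le_mul a2 b2, Nat.mul_dvd_mul a3 b3, ?_, ?_⟩
    · intro v
      exact ⟨mul_nonneg (a4 v).1 (b4 v).1, mul_le_one₀ (a4 v).2 (b4 v).1 (b4 v).2⟩
    · intro v v' hv
      show g (finProdFinEquiv.symm l).1 v * g' (finProdFinEquiv.symm l).2 v =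
        g (finProdFinEquiv.symm l).1 v' * g' (finProdFinEquiv.symm l).2 v'
      rw [a5 v v' (fun i => (hv i).of_dvd (Dvd.intro _ rfl)),
        b5 v v' (fun i => (hv i).of_dvd (Dvd.intro_left _ rfl))]
  · have e1 : ∑ l : Fin (m * m'), |c (finProdFinEquiv.symm l).1 * c' (finProdFinEquiv.symm l).2| =
        ∑ x : Fin m × Fin m', |c x.1 * c' x.2| :=
      Equiv.sum_comp finProdFinEquiv.symm (fun x : Fin m × Fin m' => |c x.1 * c' x.2|)
    rw [e1]
    have e2 : ∑ x : Fin m × Fin m', |c x.1 * c' x.2| = (∑ l, |c l|) * ∑ l', |c' l'| := by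
      rw [Fintype.sum_prod_type, Finset.sum_mul_sum]
      exact Finset.sum_congr rfl fun i _ => Finset.sum_congr rfl fun j _ => abs_mul _ _
    rw [e2]
    have p1 : 0 ≤ ∑ l, |c l| := Finset.sum_nonneg fun _ _ => abs_nonneg _
    have p2 : 0 ≤ ∑ l', |c' l'| := Finset.sum_nonneg fun _ _ => abs_nonneg _
    exact mul_le_mul h2 h2' p2 (p1.trans h2)
  · intro v
    have e1 : ∑ l : Fin (m * m'), c (finProdFinEquiv.symm l).1 * c' (finProdFinEquiv.symm l).2 *
        (g (finProdFinEquiv.symm l).1 v * g' (finProdFinEquiv.symm l).2 v) =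
        ∑ x : Fin m × Fin m', c x.1 * c' x.2 * (g x.1 v * g' x.2 v) :=
      Equiv.sum_comp finProdFinEquiv.symm
        (fun x : Fin m × Fin m' => c x.1 * c' x.2 * (g x.1 v * g' x.2 v))
    show F v * F' v = ∑ l : Fin (m * m'), c (finProdFinEquiv.symm l).1 *
      c' (finProdFinEquiv.symm l).2 *
        (g (finProdFinEquiv.symm l).1 v * g' (finProdFinEquiv.symm l).2 v)
    rw [e1, h3 v, h3' v, Fintype.sum_prod_type, Finset.sum_mul_sum]
    exact Finset.sum_congr rfl fun i _ => Finset.sum_congr rfl fun j _ => by ring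

end Pool.Agent.Helper79.SPR
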